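import Pool.Agent.helper36.DL3.Adv
import Pool.Agent.helper36.DL4.Measure

/-!
# The adversary
-/

namespace Pool.Agent.helper36.DL4

open Finset Pool.Agent.helper36.DL Pool.Agent.helper36.DL3
open Pool.Agent.helper36.DL2 (lab levels tgt tgt_isDL tgt_relevant rules tgt_eq)

variable {n : ℕ}

/-- the data of the adversary -/
structure Data (n d m L N E : ℕ) where
  vr : (ℕ × ℕ) × ℕ → Fin n
  hvr : Set.InjOn vr (levels m L ×ˢ range N : Finset ((ℕ × ℕ) × ℕ))
  a : Finset (ℕ × ℕ) → ℝ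
  b : Finset (ℕ × ℕ) → ℝ
  μ : Finset (ℕ × ℕ) → ℝ
  ε : ℝ
  e : Bool
  ha0 : ∀ Y, 0 ≤ a Y
  hb0 : ∀ Y, 0 ≤ b Y
  hμ0 : ∀ Y, 0 ≤ μ Y
  hε0 : 0 ≤ ε
  hε1 : ε * (E : ℝ) ≤ 1
  ha1 : mass m L a ∅ = 1
  hb1 : mass m L b ∅ = 1
  hμ1 : mass m L μ ∅ = 1
  hmom : ∀ S : Finset (ℕ × ℕ), S.card ≤ d →
      (1 - ε) * mass m L a S + ε * mass m L b S = mass m L μ S
  haL : ∀ Y, a Y ≠ 0 → lab Y L m = e
  hμL : ∀ Y, μ Y ≠ 0 → lab Y L m = !e

/-- `J` mistakes can be forced from every set of at least `c` candidates -/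
def Forces {d m L N E : ℕ} (D : Data n d m L N E) (A : Learner n) (J c : ℕ) : Prop :=
  ∀ (C : Finset ℕ) (h : List (Cube n × Bool)), C ⊆ range N → c ≤ C.card →
    ∃ a ∈ C, ∃ xs, J ≤ mistakes A (tgt (fun k => D.vr (k, a)) L m) h xs

theorem forces_zero {d m L N E : ℕ} (D : Data n d m L N E) (A : Learner n) : Forces D A 0 1 := by
  intro C h _ hc
  obtain ⟨a, ha⟩ := Finset.card_pos.1 (by omega : 0 < C.card)
  exact ⟨a, ha, [], Nat.zero_le _⟩

theorem forces_succ {d m L N E : ℕ} (D : Data n d m L N E) (A : Learner n)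
    (hE : 0 < E)
    (hA : ∀ h, IsPTF d (A h)) {J c s : ℕ} (hc : Forces D A J c) (hs : c + d * s ≤ s * E) :
    Forces D A (J + 1) (c + d * s) := by
  intro C h hC hcard
  obtain ⟨C', hC'C, hC'⟩ := Finset.exists_subset_card_eq hcard
  obtain ⟨grp, hgrp⟩ := exists_grp (E := E) (s := s) hE C' (by rw [hC']; exact hs)
  obtain ⟨x, b', hxb, hsmall⟩ := step D.hvr D.ha0 D.hb0 D.hμ0 D.hε0 D.ha1 D.hb1 D.hμ1 D.hmom
    D.haL D.hμL (v := E) D.hε1 (A h) (hA h) C'
    (hC'C.trans hC) grp s hgrp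
  set C'' := C'.filter fun a => tgt (fun k => D.vr (k, a)) L m x = b' with hC''
  have h3 : C''.card + (C'.filter fun a => tgt (fun k => D.vr (k, a)) L m x ≠ b').card
      = C'.card := Finset.card_filter_add_card_filter_not _
  obtain ⟨a, ha, xs, hxs⟩ := hc C'' (h ++ [(x, b')])
    ((Finset.filter_subset _ _).trans (hC'C.trans hC)) (by omega)
  rw [hC'', Finset.mem_filter] at ha
  refine ⟨a, hC'C ha.1, x :: xs, ?_⟩
  rw [mistakes, ha.2, if_neg hxb]
  omega

theorem Forces.mono {d m L N E : ℕ} {D : Data n d m L N E} {A : Learner n} {J c c' : ℕ}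
    (h : Forces D A J c) (hc : c ≤ c') : Forces D A J c' :=
  fun C hh hC hcard => h C hh hC (hc.trans hcard)

theorem forces_base {d m L N E : ℕ} (D : Data n d m L N E) (A : Learner n) (hE : 0 < E)
    (hA : ∀ h, IsPTF d (A h)) (J : ℕ) : 1 + d * J ≤ E → Forces D A J (1 + d * J) := by
  induction J with
  | zero => intro _; exact forces_zero D A
  | succ J ih =>
    intro h
    have h1 := forces_succ D A hE hA (s := 1) (ih (by rw [Nat.mul_succ] at h; omega))
      (by rw [Nat.mul_succ] at h; omega)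
    have h2 : 1 + d * J + d * 1 = 1 + d * (J + 1) := by ring
    rw [h2] at h1
    exact h1

theorem forces_big {d m L N E : ℕ} (D : Data n d m L N E) (A : Learner n) (hE : 0 < E)
    (hA : ∀ h, IsPTF d (A h)) (a : ℕ) :
    Forces D A ((E - 1) / d + a * (E / (2 * d))) (E * 2 ^ a) := by
  induction a with
  | zero =>
    have h1 : d * ((E - 1) / d) ≤ E - 1 := Nat.mul_div_le _ _
    have h2 : 1 ≤ E := hE
    have h3 := (forces_base D A hE hA ((E - 1) / d) (by omega)).mono
      (c' := E * 2 ^ 0) (by rw [pow_zero, mul_one]; omega)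
    rw [zero_mul, add_zero]
    exact h3
  | succ a ih =>
    have key : ∀ j ≤ E / (2 * d), Forces D A ((E - 1) / d + a * (E / (2 * d)) + j)
        (E * 2 ^ a + j * (d * 2 ^ (a + 1))) := by
      intro j
      induction j with
      | zero => intro _; simpa using ih
      | succ j ihj =>
        intro hj
        have h1 := forces_succ D A hE hA (s := 2 ^ (a + 1)) (ihj (by omega)) (by
          have h2 : (j + 1) * (2 * d) ≤ E :=
            (Nat.mul_le_mul_right _ hj).trans (Nat.div_mul_le_self _ _)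
          calc E * 2 ^ a + j * (d * 2 ^ (a + 1)) + d * 2 ^ (a + 1)
              = E * 2 ^ a + ((j + 1) * (2 * d)) * 2 ^ a := by rw [pow_succ]; ring
            _ ≤ E * 2 ^ a + E * 2 ^ a :=
              Nat.add_le_add_left (Nat.mul_le_mul_right _ h2) _
            _ = 2 ^ (a + 1) * E := by rw [pow_succ]; ring)
        have h3 : E * 2 ^ a + j * (d * 2 ^ (a + 1)) + d * 2 ^ (a + 1)
            = E * 2 ^ a + (j + 1) * (d * 2 ^ (a + 1)) := by ring
        rw [h3] at h1
        exact h1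
    have h4 := (key (E / (2 * d)) le_rfl).mono (c' := E * 2 ^ (a + 1)) (by
      have h2 : E / (2 * d) * (2 * d) ≤ E := Nat.div_mul_le_self _ _
      calc E * 2 ^ a + E / (2 * d) * (d * 2 ^ (a + 1))
          = E * 2 ^ a + (E / (2 * d) * (2 * d)) * 2 ^ a := by rw [pow_succ]; ring
        _ ≤ E * 2 ^ a + E * 2 ^ a := Nat.add_le_add_left (Nat.mul_le_mul_right _ h2) _
        _ = E * 2 ^ (a + 1) := by rw [pow_succ]; ring)
    have h5 : (E - 1) / d + a * (E / (2 * d)) + E / (2 * d)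
        = (E - 1) / d + (a + 1) * (E / (2 * d)) := by ring
    rw [h5] at h4
    exact h4

/-- the number of changes of the output along the list of rules, the default included -/
def alts : List (Fin n × Bool × Bool) → Bool → ℕ
  | [], _ => 0
  | [(_, _, o)], b => if o = b then 0 else 1
  | (_, _, o) :: (i, s, o') :: l, b => (if o = o' then 0 else 1) + alts ((i, s, o') :: l) b

/-- `f` is computed by a decision list with at most `D` alternations -/
def IsAltDecisionList (D : ℕ) (f : Cube n → Bool) : Prop :=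
  ∃ l b, alts l b ≤ D ∧ ∀ x, f x = evalDL l b x

theorem alts_cons_le (q : Fin n × Bool × Bool) (r : List (Fin n × Bool × Bool)) (b : Bool) :
    alts (q :: r) b ≤ 1 + alts r b := by
  obtain ⟨i, s, o⟩ := q
  rcases r with _ | ⟨⟨i', s', o'⟩, r⟩
  · rw [alts, alts]
    split_ifs <;> omega
  · rw [alts]
    split_ifs <;> omega

theorem alts_block (o b : Bool) (f : ℕ → Fin n) (r : List (Fin n × Bool × Bool)) (ls : List ℕ) :
    alts (ls.map (fun l => (f l, true, o)) ++ r) b ≤ 1 + alts r b := by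
  induction ls with
  | nil => simp
  | cons a ls ih =>
    rcases ls with _ | ⟨a', ls⟩
    · exact alts_cons_le _ _ _
    · rw [List.map_cons, List.cons_append] at ih ⊢
      rw [List.map_cons, List.cons_append, alts, if_pos rfl, zero_add]
      exact ih

theorem alts_rules (ι : ℕ × ℕ → Fin n) (L m : ℕ) : alts (rules ι L m) false ≤ m := by
  induction m with
  | zero => exact le_rfl
  | succ m ih =>
    rw [rules]
    refine (alts_block _ _ _ _ _).trans ?_
    omega

theorem tgt_isAlt (ι : ℕ × ℕ → Fin n) (L m : ℕ) : IsAltDecisionList m (tgt ι L m) :=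
  ⟨rules ι L m, false, alts_rules ι L m, tgt_eq ι L m⟩

/-- **learners with polynomial threshold hypotheses** -/
theorem ptf_learner (d g m a n : ℕ) (hd : 1 ≤ d) (hg : 1 ≤ g) (hm : 1 ≤ m)
    (hn : 8 * g * d ^ 2 * m * ((2 * g) ^ m * 2 ^ a) ≤ n) (A : Learner n)
    (hA : ∀ h, IsPTF d (A h)) :
    ∃ c : Cube n → Bool, IsAltDecisionList m c ∧ (relevant c).ncard ≤ 8 * g * d ^ 2 * m ∧
      ∃ xs, ((2 * g) ^ m - 1) / d + a * ((2 * g) ^ m / (2 * d)) ≤ mistakes A c [] xs := by
  obtain ⟨ga, gb, μ, ε, e, h1, h2, h3, h4, h5, h6, h7, h8, h9, h10, h11⟩ := measures hg hd hm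
  have hd2 : 1 ≤ d ^ 2 := Nat.one_le_pow _ _ hd
  have hE : 0 < (2 * g) ^ m := by positivity
  obtain ⟨vr, hvr⟩ := exists_injOn (n := n)
    (levels m (8 * g * d ^ 2) ×ˢ range ((2 * g) ^ m * 2 ^ a))
    (le_trans (Nat.one_le_iff_ne_zero.2 (by positivity)) hn)
    (by
      rw [Finset.card_product, levels, Finset.card_product, Finset.card_range, Finset.card_range,
        Finset.card_range, mul_comm m]
      exact hn)
  let D : Data n d m (8 * g * d ^ 2) ((2 * g) ^ m * 2 ^ a) ((2 * g) ^ m) :=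
    ⟨vr, hvr, ga, gb, μ, ε, e, h1, h2, h3, h4, by push_cast; exact h5, h6, h7, h8, h9, h10, h11⟩
  obtain ⟨b, _, xs, hxs⟩ := forces_big D A hE hA a (range ((2 * g) ^ m * 2 ^ a)) [] subset_rfl
    (by rw [Finset.card_range])
  refine ⟨_, tgt_isAlt _ _ _, ?_, xs, hxs⟩
  rw [mul_comm (8 * g * d ^ 2) m]
  exact tgt_relevant _ _ _

end Pool.Agent.helper36.DL4
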