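import Pool.Agent.helper36.DL.Nodes

/-!
# Extrapolation to 0 from the nodes 1, 8 g, 32 g, ..., 8 g d^2
-/

namespace Pool.Agent.helper36.DL4

open Finset Polynomial Pool.Agent.helper36.DL

/-- the nodes: `1, 8 g, 32 g, ..., 8 g i ^ 2` -/
noncomputable def node (g i : ℕ) : ℝ := if i = 0 then 1 else 8 * (g : ℝ) * (i : ℝ) ^ 2

theorem node_zero (g : ℕ) : node g 0 = 1 := by simp [node]

theorem node_succ (g i : ℕ) : node g (i + 1) = 8 * (g : ℝ) * ((i : ℝ) + 1) ^ 2 := by simp [node]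

theorem node_strictMono {g : ℕ} (hg : 1 ≤ g) : StrictMono (node g) := by
  have hg' : (1 : ℝ) ≤ g := by exact_mod_cast hg
  refine strictMono_nat_of_lt_succ fun i => ?_
  rcases i with _ | i
  · rw [node_zero, node_succ]
    norm_num
    linarith
  · rw [node_succ, node_succ]
    push_cast
    have : (0 : ℝ) ≤ i := by positivity
    have h8 : (0 : ℝ) < 8 * g := by linarith
    have h9 : ((i : ℝ) + 1) ^ 2 < ((i : ℝ) + 1 + 1) ^ 2 := by nlinarith
    exact mul_lt_mul_of_pos_left h9 h8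

/-- the weights of the extrapolation to 0 -/
noncomputable def wgt (g d i : ℕ) : ℝ := (Lagrange.basis (range (d + 1)) (node g) i).eval 0

theorem wgt_eq (g d i : ℕ) :
    wgt g d i = ∏ j ∈ (range (d + 1)).erase i, (- node g j) / (node g i - node g j) := by
  rw [wgt, Lagrange.basis, Polynomial.eval_prod]
  refine Finset.prod_congr rfl fun j _ => ?_
  rw [Lagrange.basisDivisor]
  simp only [eval_mul, eval_C, eval_sub, eval_X]
  rw [zero_sub, div_eq_inv_mul]

theorem wgt_zero_nonneg {g : ℕ} (hg : 1 ≤ g) (d : ℕ) : 0 ≤ wgt g d 0 := by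
  rw [wgt_eq g d 0]
  refine Finset.prod_nonneg fun j hj => ?_
  have hj' : 0 < j := Nat.pos_of_ne_zero (Finset.mem_erase.1 hj).1
  have h1 : node g 0 < node g j := node_strictMono hg hj'
  have h2 : node g 0 = 1 := node_zero g
  rw [← neg_div_neg_eq]
  exact div_nonneg (by linarith) (by linarith)

theorem wgt_succ_abs {g : ℕ} (hg : 1 ≤ g) (d i : ℕ) (hi : i < d) :
    |wgt g d (i + 1)| ≤ 1 / g * (1 / ((2 * i + 1) * (2 * i + 3))) := by
  have hg' : (1 : ℝ) ≤ g := by exact_mod_cast hg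
  have hg0 : (0 : ℝ) < g := by linarith
  have h6 : (0 : ℝ) ≤ i := by positivity
  have h7 : (0 : ℝ) < 8 * (g : ℝ) * ((i : ℝ) + 1) ^ 2 - 1 := by
    have : (1 : ℝ) ≤ ((i : ℝ) + 1) ^ 2 := by nlinarith
    nlinarith
  have h1 : |wgt g d (i + 1)| = sqProd i d * (1 / (8 * (g : ℝ) * ((i : ℝ) + 1) ^ 2 - 1)) := by
    rw [wgt_eq g d (i + 1), Finset.abs_prod]
    have h2 : ∏ j ∈ (range (d + 1)).erase (i + 1), |(- node g j) / (node g (i + 1) - node g j)|
        = ∏ j ∈ range (d + 1), if j = i + 1 then 1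
          else |(- node g j) / (node g (i + 1) - node g j)| := by
      rw [← Finset.mul_prod_erase (range (d + 1)) (fun j => if j = i + 1 then (1 : ℝ) else
        |(- node g j) / (node g (i + 1) - node g j)|)
        (Finset.mem_range.2 (by omega : i + 1 < d + 1)), if_pos rfl, one_mul]
      refine Finset.prod_congr rfl fun j hj => ?_
      rw [if_neg (Finset.mem_erase.1 hj).1]
    rw [h2, Finset.prod_range_succ', sqProd]
    congr 1
    · refine Finset.prod_congr rfl fun j _ => ?_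
      by_cases hji : j = i
      · rw [if_pos (by omega), if_pos hji]
      · rw [if_neg (by omega), if_neg hji, node_succ, node_succ]
        have h3 : -(8 * (g : ℝ) * ((j : ℝ) + 1) ^ 2)
            / (8 * (g : ℝ) * ((i : ℝ) + 1) ^ 2 - 8 * (g : ℝ) * ((j : ℝ) + 1) ^ 2)
            = ((j : ℝ) + 1) ^ 2 / (((j : ℝ) + 1) ^ 2 - ((i : ℝ) + 1) ^ 2) := by
          have h4 : 8 * (g : ℝ) * ((i : ℝ) + 1) ^ 2 - 8 * (g : ℝ) * ((j : ℝ) + 1) ^ 2
              = - (8 * (g : ℝ) * (((j : ℝ) + 1) ^ 2 - ((i : ℝ) + 1) ^ 2)) := by ring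
          rw [h4, neg_div_neg_eq, mul_div_mul_left _ _ (by positivity)]
        rw [h3]
    · rw [if_neg (by omega), node_succ, node_zero, abs_div, abs_neg, abs_one]
      congr 1
      exact abs_of_nonneg h7.le
  rw [h1]
  have h5 := sqProd_le hi
  calc sqProd i d * (1 / (8 * (g : ℝ) * ((i : ℝ) + 1) ^ 2 - 1))
      ≤ 2 * (1 / (8 * (g : ℝ) * ((i : ℝ) + 1) ^ 2 - 1)) := by gcongr
    _ = 2 / (8 * (g : ℝ) * ((i : ℝ) + 1) ^ 2 - 1) := by ring
    _ ≤ 1 / (g * ((2 * i + 1) * (2 * i + 3))) := by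
        rw [div_le_div_iff₀ h7 (by positivity)]
        nlinarith
    _ = 1 / g * (1 / ((2 * i + 1) * (2 * i + 3))) := by
        rw [div_mul_div_comm, one_mul]

/-- the extrapolation formula for a polynomial -/
theorem sum_wgt {g d : ℕ} (hg : 1 ≤ g) (Q : ℝ[X]) (hQ : Q.natDegree ≤ d) :
    ∑ i ∈ range (d + 1), wgt g d i * Q.eval (node g i) = Q.eval 0 := by
  have hdeg : Q.degree < (range (d + 1)).card := by
    rw [Finset.card_range]
    exact lt_of_le_of_lt Polynomial.degree_le_natDegree (by exact_mod_cast Nat.lt_succ_of_le hQ)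
  have h1 := Lagrange.eq_interpolate (f := Q) (s := range (d + 1)) (v := node g)
    (fun a _ b _ h => (node_strictMono hg).injective h) hdeg
  conv_rhs => rw [h1]
  rw [Lagrange.interpolate_apply, Polynomial.eval_finsetSum]
  refine Finset.sum_congr rfl fun i _ => ?_
  rw [Polynomial.eval_mul, Polynomial.eval_C, wgt, mul_comm]

end Pool.Agent.helper36.DL4
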