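import Pool.Agent.helper36.DL4.Nodes
import Pool.Agent.helper36.DL2.RunDual

/-!
# The dual measure of one run
-/

namespace Pool.Agent.helper36.DL4

open Finset Polynomial
open Pool.Agent.helper36.DL2 (sub_dvd_factorial card_between_mul countP_sum_smul)
open Pool.Agent.helper36.DL (sum_inv)

/-- the nodes as natural numbers -/
def nodeN (g i : ℕ) : ℕ := if i = 0 then 1 else 8 * g * i ^ 2

theorem node_eq (g i : ℕ) : node g i = (nodeN g i : ℝ) := by
  unfold node nodeN
  split_ifs <;> push_cast <;> rfl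

theorem nodeN_le {g d i : ℕ} (hg : 1 ≤ g) (hd : 1 ≤ d) (hi : i ≤ d) :
    nodeN g i ≤ 8 * g * d ^ 2 := by
  unfold nodeN
  split_ifs
  · nlinarith
  · gcongr

theorem nodeN_pos {g : ℕ} (hg : 1 ≤ g) (i : ℕ) : 1 ≤ nodeN g i := by
  unfold nodeN
  split_ifs with h
  · exact le_rfl
  · have h1 : 1 ≤ i ^ 2 := Nat.one_le_pow _ _ (by omega)
    exact Nat.mul_pos (by omega) h1

/-- the integer weight of the node `i` -/
noncomputable def zw (g d i : ℕ) : ℤ :=
  ∏ j ∈ (range (d + 1)).erase i,
    (-(nodeN g j : ℤ)) * (((8 * g * d ^ 2).factorial : ℤ) / ((nodeN g i : ℤ) - nodeN g j))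

theorem zw_eq {g d i : ℕ} (hg : 1 ≤ g) (hd : 1 ≤ d) (hi : i ≤ d) :
    (zw g d i : ℝ) = ((8 * g * d ^ 2).factorial : ℝ) ^ d * wgt g d i := by
  have hc : ((range (d + 1)).erase i).card = d := by
    rw [Finset.card_erase_of_mem (Finset.mem_range.2 (by omega)), Finset.card_range]; rfl
  rw [wgt_eq g d i, zw]
  push_cast
  have h1 : ((8 * g * d ^ 2).factorial : ℝ) ^ d
      = ∏ _j ∈ (range (d + 1)).erase i, ((8 * g * d ^ 2).factorial : ℝ) := by
    rw [Finset.prod_const, hc]
  rw [h1, ← Finset.prod_mul_distrib]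
  refine Finset.prod_congr rfl fun j hj => ?_
  rw [Finset.mem_erase, Finset.mem_range] at hj
  have hne : nodeN g i ≠ nodeN g j := by
    intro h
    have h2 : node g i = node g j := by rw [node_eq, node_eq, h]
    exact hj.1 ((node_strictMono hg).injective h2).symm
  have hdvd := sub_dvd_factorial (nodeN_le hg hd hi) (nodeN_le hg hd (by omega : j ≤ d)) hne
  obtain ⟨e, he⟩ := hdvd
  have hne' : ((nodeN g i : ℤ) - nodeN g j) ≠ 0 := by
    intro h; apply hne; omega
  have h3 : (((8 * g * d ^ 2).factorial : ℤ) / ((nodeN g i : ℤ) - nodeN g j)) = e := by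
    rw [he, Int.mul_ediv_cancel_left _ hne']
  rw [h3, node_eq, node_eq]
  have h4 : ((8 * g * d ^ 2).factorial : ℝ) = ((nodeN g i : ℝ) - nodeN g j) * e := by
    exact_mod_cast congrArg (Int.cast (R := ℝ)) he
  have h5 : ((nodeN g i : ℝ) - nodeN g j) ≠ 0 := by exact_mod_cast hne'
  rw [h4]
  field_simp

/-- the multiplicity of the sets of size `node i` -/
noncomputable def kap (g d i : ℕ) : ℤ :=
  zw g d i * ((nodeN g i).factorial * (8 * g * d ^ 2 - nodeN g i).factorial : ℕ)

/-- the positive part of the run measure -/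
noncomputable def KP (g d : ℕ) : Multiset (Finset ℕ) :=
  ∑ i ∈ range (d + 1), (kap g d i).toNat • (powersetCard (nodeN g i) (range (8 * g * d ^ 2))).val

/-- the negative part of the run measure -/
noncomputable def KN (g d : ℕ) : Multiset (Finset ℕ) :=
  ∑ i ∈ range (d + 1), (-kap g d i).toNat • (powersetCard (nodeN g i) (range (8 * g * d ^ 2))).val

/-- the common denominator -/
def DD (g d : ℕ) : ℕ := (8 * g * d ^ 2).factorial ^ (d + 1)

theorem mem_KP_KN {g d : ℕ} (hg : 1 ≤ g) {T : Finset ℕ} (hT : T ∈ KP g d ∨ T ∈ KN g d) :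
    T ⊆ range (8 * g * d ^ 2) ∧ T.Nonempty := by
  have : ∃ i, T ∈ powersetCard (nodeN g i) (range (8 * g * d ^ 2)) := by
    rcases hT with hT | hT
    · rw [KP, Multiset.mem_sum] at hT
      obtain ⟨i, _, hi⟩ := hT
      exact ⟨i, Multiset.mem_of_mem_nsmul hi⟩
    · rw [KN, Multiset.mem_sum] at hT
      obtain ⟨i, _, hi⟩ := hT
      exact ⟨i, Multiset.mem_of_mem_nsmul hi⟩
  obtain ⟨i, hi⟩ := this
  rw [Finset.mem_powersetCard] at hi
  refine ⟨hi.1, Finset.card_pos.1 ?_⟩
  rw [hi.2]
  exact nodeN_pos hg i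

theorem run_moment {g d : ℕ} (hg : 1 ≤ g) (hd : 1 ≤ d) (S : Finset ℕ) (hS : S.card ≤ d) :
    (KP g d).countP (fun T => S ⊆ T)
      = (if S = ∅ then DD g d else 0) + (KN g d).countP (fun T => S ⊆ T) := by
  rw [KP, KN, countP_sum_smul, countP_sum_smul]
  by_cases hSR : S ⊆ range (8 * g * d ^ 2)
  · -- integer identity
    have hL : (range (8 * g * d ^ 2)).card = 8 * g * d ^ 2 := Finset.card_range _
    have key : ∑ i ∈ range (d + 1), kap g d i * (((powersetCard (nodeN g i) (range (8 * g * d ^ 2))).filter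
        (fun T => S ⊆ T)).card : ℤ) = if S = ∅ then (DD g d : ℤ) else 0 := by
      have h1 : ∀ i ∈ range (d + 1), kap g d i * (((powersetCard (nodeN g i)
          (range (8 * g * d ^ 2))).filter (fun T => S ⊆ T)).card : ℤ)
          = zw g d i * ((nodeN g i).descFactorial S.card * (8 * g * d ^ 2 - S.card).factorial : ℕ) := by
        intro i hi
        have hi' : i ≤ d := Nat.lt_succ_iff.1 (Finset.mem_range.1 hi)
        have h2 := card_between_mul hSR (nodeN g i) (by rw [hL]; exact nodeN_le hg hd hi')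
        rw [hL] at h2
        rw [← h2, kap]
        push_cast
        ring
      rw [Finset.sum_congr rfl h1]
      have h3 : ((∑ i ∈ range (d + 1), zw g d i * (((nodeN g i).descFactorial S.card
          * (8 * g * d ^ 2 - S.card).factorial : ℕ) : ℤ) : ℤ) : ℝ)
          = (((if S = ∅ then (DD g d : ℤ) else 0) : ℤ) : ℝ) := by
        push_cast
        have h4 : ∀ i ∈ range (d + 1), (zw g d i : ℝ) * (((nodeN g i).descFactorial S.card : ℝ)
            * ((8 * g * d ^ 2 - S.card).factorial : ℝ))
            = ((8 * g * d ^ 2).factorial : ℝ) ^ d * ((8 * g * d ^ 2 - S.card).factorial : ℝ)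
              * (wgt g d i * (descPochhammer ℝ S.card).eval (node g i)) := by
          intro i hi
          have hi' : i ≤ d := Nat.lt_succ_iff.1 (Finset.mem_range.1 hi)
          rw [zw_eq hg hd hi', node_eq, descPochhammer_eval_eq_descFactorial]
          ring
        rw [Finset.sum_congr rfl h4, ← Finset.mul_sum, sum_wgt hg _ (by
          rw [descPochhammer_natDegree]; exact hS)]
        rw [descPochhammer_eval_zero]
        by_cases hS0 : S = ∅
        · rw [if_pos hS0, hS0, Finset.card_empty, if_pos rfl, Nat.sub_zero, DD]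
          push_cast
          ring
        · rw [if_neg hS0, if_neg (by rw [Finset.card_eq_zero]; exact hS0)]
          ring
      exact_mod_cast h3
    have h5 : (∑ i ∈ range (d + 1), (((kap g d i).toNat * ((powersetCard (nodeN g i)
        (range (8 * g * d ^ 2))).filter (fun T => S ⊆ T)).card : ℕ) : ℤ))
        - ∑ i ∈ range (d + 1), (((-kap g d i).toNat * ((powersetCard (nodeN g i)
        (range (8 * g * d ^ 2))).filter (fun T => S ⊆ T)).card : ℕ) : ℤ)
        = if S = ∅ then (DD g d : ℤ) else 0 := by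
      rw [← key, ← Finset.sum_sub_distrib]
      refine Finset.sum_congr rfl fun i _ => ?_
      push_cast
      rw [← sub_mul]
      congr 1
      have := Int.toNat_sub_toNat_neg (kap g d i)
      exact this
    zify
    rw [← h5]
    push_cast
    ring
  · have h0 : ∀ i, (powersetCard (nodeN g i) (range (8 * g * d ^ 2))).filter (fun T => S ⊆ T) = ∅ := by
      intro i
      rw [Finset.filter_eq_empty_iff]
      intro T hT hST
      exact hSR (hST.trans (Finset.mem_powersetCard.1 hT).1)
    have hS0 : S ≠ ∅ := fun h => hSR (h ▸ Finset.empty_subset _)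
    simp [h0, hS0]

theorem card_KN {g d : ℕ} (hg : 1 ≤ g) (hd : 1 ≤ d) : 2 * g * (KN g d).card ≤ DD g d := by
  have h1 : (KN g d).card = ∑ i ∈ range (d + 1), (-zw g d i).toNat * (8 * g * d ^ 2).factorial := by
    rw [KN, Multiset.card_sum]
    refine Finset.sum_congr rfl fun i hi => ?_
    have hi' : i ≤ d := Nat.lt_succ_iff.1 (Finset.mem_range.1 hi)
    rw [Multiset.card_nsmul]
    have h2 : Multiset.card (powersetCard (nodeN g i) (range (8 * g * d ^ 2))).val
        = (8 * g * d ^ 2).choose (nodeN g i) := by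
      have := Finset.card_powersetCard (nodeN g i) (range (8 * g * d ^ 2))
      rw [Finset.card_range] at this
      exact this
    rw [h2]
    have h3 : (-kap g d i).toNat = (-zw g d i).toNat
        * ((nodeN g i).factorial * (8 * g * d ^ 2 - nodeN g i).factorial) := by
      rw [kap, ← neg_mul]
      rcases le_total 0 (-zw g d i) with h4 | h4
      · rw [Int.toNat_mul h4 (by positivity), Int.toNat_natCast]
      · rw [Int.toNat_of_nonpos h4, zero_mul]
        exact Int.toNat_of_nonpos (mul_nonpos_of_nonpos_of_nonneg h4 (by positivity))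
    rw [h3, mul_assoc]
    congr 1
    have h5 := Nat.choose_mul_factorial_mul_factorial (nodeN_le hg hd hi')
    rw [← h5]
    ring
  have hg' : (1 : ℝ) ≤ g := by exact_mod_cast hg
  have hg0 : (0 : ℝ) < g := by linarith
  have h6 : ((KN g d).card : ℝ) ≤ (DD g d : ℝ) * (1 / g * ((d : ℝ) / (2 * d + 1))) := by
    rw [h1]
    push_cast
    rw [Finset.sum_range_succ']
    have h0 : (-zw g d 0).toNat = 0 := by
      apply Int.toNat_of_nonpos
      have h7 : (0 : ℝ) ≤ (zw g d 0 : ℝ) := by
        rw [zw_eq hg hd (Nat.zero_le _)]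
        exact mul_nonneg (by positivity) (wgt_zero_nonneg hg d)
      have : (0 : ℤ) ≤ zw g d 0 := by exact_mod_cast h7
      omega
    rw [h0, Nat.cast_zero, zero_mul, add_zero]
    have h8 : ∀ i ∈ range d, ((-zw g d (i + 1)).toNat : ℝ) * ((8 * g * d ^ 2).factorial : ℝ)
        ≤ (DD g d : ℝ) * (1 / g) * (1 / ((2 * (i : ℝ) + 1) * (2 * i + 3))) := by
      intro i hi
      have hi' := Finset.mem_range.1 hi
      have h9 : ((-zw g d (i + 1)).toNat : ℝ) ≤ |(zw g d (i + 1) : ℝ)| := by
        have : ((-zw g d (i + 1)).toNat : ℤ) ≤ |zw g d (i + 1)| := by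
          rw [Int.toNat_eq_max]
          exact max_le (neg_le_abs _) (abs_nonneg _)
        exact_mod_cast this
      rw [zw_eq hg hd (by omega), abs_mul, abs_of_nonneg (by positivity)] at h9
      have h10 := wgt_succ_abs hg d i hi'
      calc ((-zw g d (i + 1)).toNat : ℝ) * ((8 * g * d ^ 2).factorial : ℝ)
          ≤ (((8 * g * d ^ 2).factorial : ℝ) ^ d
              * (1 / g * (1 / ((2 * (i : ℝ) + 1) * (2 * i + 3)))))
            * ((8 * g * d ^ 2).factorial : ℝ) := by
            gcongr
            exact h9.trans (mul_le_mul_of_nonneg_left h10 (by positivity))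
        _ = _ := by rw [DD]; push_cast; ring
    refine (Finset.sum_le_sum h8).trans ?_
    rw [← Finset.mul_sum, sum_inv, mul_assoc]
  have h11 : (d : ℝ) / (2 * d + 1) ≤ 1 / 2 := by
    rw [div_le_div_iff₀ (by positivity) (by norm_num)]
    linarith
  have h12 : 2 * (g : ℝ) * ((KN g d).card : ℝ) ≤ (DD g d : ℝ) := by
    have h13 : (1 : ℝ) / g * ((d : ℝ) / (2 * d + 1)) ≤ 1 / g * (1 / 2) :=
      mul_le_mul_of_nonneg_left h11 (by positivity)
    have h14 : (DD g d : ℝ) * (1 / g * ((d : ℝ) / (2 * d + 1)))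
        ≤ (DD g d : ℝ) * (1 / g * (1 / 2)) :=
      mul_le_mul_of_nonneg_left h13 (by positivity)
    calc 2 * (g : ℝ) * ((KN g d).card : ℝ)
        ≤ 2 * (g : ℝ) * ((DD g d : ℝ) * (1 / g * (1 / 2))) :=
          mul_le_mul_of_nonneg_left (h6.trans h14) (by positivity)
      _ = (DD g d : ℝ) := by field_simp
  exact_mod_cast h12

end Pool.Agent.helper36.DL4
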